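import Pool.Agent.Lib.MP_172a45_an.H13.Defs

/-!
The budget inequalities for a configuration with `∑ x k ≤ N`.
-/

namespace Pool.Agent.Lib.MP_172a45_an.H13

open Complex Finset

/-- the standing hypotheses -/
structure Hyp (ε r : ℝ) {N : ℕ} (v : Fin N → ℂ) : Prop where
  he : 0 < ε
  he1 : ε ≤ 1 / 2
  hr : ε ≤ r
  hr1 : r ≤ 1 - ε
  reg : ∀ k, Reg r (v k)
  sum_le : ∑ k, ‖v k‖ / r ≤ N

/-- the indices with `x k ≤ 2/ε` -/
noncomputable def Sm (ε r : ℝ) {N : ℕ} (v : Fin N → ℂ) : Finset (Fin N) :=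
  Finset.univ.filter fun k => ‖v k‖ / r ≤ 2 / ε

/-- the indices with `x k > 2/ε` -/
noncomputable def La (ε r : ℝ) {N : ℕ} (v : Fin N → ℂ) : Finset (Fin N) :=
  Finset.univ.filter fun k => ¬ ‖v k‖ / r ≤ 2 / ε

noncomputable def KK (ε r : ℝ) {N : ℕ} (v : Fin N → ℂ) : ℂ := ∑ k ∈ Sm ε r v, v k

noncomputable def Lam (ε r : ℝ) {N : ℕ} (v : Fin N → ℂ) : ℝ := ∑ k ∈ La ε r v, ‖v k‖

noncomputable def VV (ε r : ℝ) {N : ℕ} (v : Fin N → ℂ) : ℂ := ∑ k ∈ Sm ε r v, v k ^ 2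

lemma sum_split (ε r : ℝ) {N : ℕ} (v : Fin N → ℂ) {M : Type*} [AddCommMonoid M] (f : Fin N → M) :
    ∑ k, f k = ∑ k ∈ Sm ε r v, f k + ∑ k ∈ La ε r v, f k := by
  rw [Sm, La, Finset.sum_filter_add_sum_filter_not]

lemma prod_split (ε r : ℝ) {N : ℕ} (v : Fin N → ℂ) {M : Type*} [CommMonoid M] (f : Fin N → M) :
    ∏ k, f k = (∏ k ∈ Sm ε r v, f k) * ∏ k ∈ La ε r v, f k := by
  rw [Sm, La, Finset.prod_filter_mul_prod_filter_not]

lemma card_split (ε r : ℝ) {N : ℕ} (v : Fin N → ℂ) :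
    N = (Sm ε r v).card + (La ε r v).card := by
  have := sum_split ε r v (fun _ => (1:ℕ))
  simpa using this

variable {ε r : ℝ} {N : ℕ} {v : Fin N → ℂ}

lemma Hyp.r_pos (h : Hyp ε r v) : 0 < r := lt_of_lt_of_le h.he h.hr

lemma Hyp.r_lt (h : Hyp ε r v) : r < 1 := by linarith [h.he, h.hr1]

lemma Hyp.T_ge (h : Hyp ε r v) : 4 ≤ 2 / ε := by
  rw [le_div_iff₀ h.he]; linarith [h.he1]

lemma Hyp.T_pos (h : Hyp ε r v) : 0 < 2 / ε := by linarith [h.T_ge]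

lemma Hyp.norm_le (h : Hyp ε r v) {k : Fin N} (hk : k ∈ Sm ε r v) : ‖v k‖ ≤ 2 / ε := by
  rw [Sm, Finset.mem_filter] at hk
  have h1 := hk.2
  have h2 : ‖v k‖ = r * (‖v k‖ / r) := by
    have := h.r_pos.ne'
    field_simp
  have h3 := h.r_lt
  have h4 := h.r_pos
  rw [h2]
  have h5 : 0 ≤ ‖v k‖ / r := by positivity
  nlinarith

lemma Hyp.x_gt (_h : Hyp ε r v) {k : Fin N} (hk : k ∈ La ε r v) : 2 / ε < ‖v k‖ / r := by
  rw [La, Finset.mem_filter] at hk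
  exact not_le.mp hk.2

lemma Hyp.norm_ge (h : Hyp ε r v) (k : Fin N) : ε / 2 ≤ ‖v k‖ := by
  have h1 := one_le_x_mul h.r_pos (h.reg k)
  have h2 : ‖v k‖ = r * (‖v k‖ / r) := by
    have := h.r_pos.ne'
    field_simp
  have h3 := h.r_lt
  have h4 := h.r_pos
  have h5 := h.hr
  have h6 := h.he
  set x := ‖v k‖ / r
  rw [h2]
  have hx : 1 / 2 ≤ x := by nlinarith
  nlinarith

/-- main budget inequality -/
lemma Hyp.budget (h : Hyp ε r v) :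
    ∑ k ∈ Sm ε r v, phi r (v k) + ∑ k ∈ La ε r v, (‖v k‖ / r - 1) ≤ (KK ε r v).re := by
  have h1 := h.sum_le
  rw [sum_split ε r v] at h1
  have h2 : ∑ k ∈ Sm ε r v, phi r (v k) =
      ∑ k ∈ Sm ε r v, ‖v k‖ / r + (KK ε r v).re - (Sm ε r v).card := by
    simp only [phi, KK]
    rw [Complex.re_sum, Finset.sum_sub_distrib, Finset.sum_add_distrib]
    simp
  have h3 : ∑ k ∈ La ε r v, (‖v k‖ / r - 1) =
      ∑ k ∈ La ε r v, ‖v k‖ / r - (La ε r v).card := by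
    rw [Finset.sum_sub_distrib]; simp
  have h4 : (N : ℝ) = (Sm ε r v).card + (La ε r v).card := by
    exact_mod_cast card_split ε r v
  rw [h2, h3]
  linarith

lemma Hyp.sum_phi_Sm_nonneg (h : Hyp ε r v) : 0 ≤ ∑ k ∈ Sm ε r v, phi r (v k) :=
  Finset.sum_nonneg fun k _ => phi_nonneg h.r_pos (h.reg k)

lemma Hyp.x_sub_one_ge (h : Hyp ε r v) {k : Fin N} (hk : k ∈ La ε r v) :
    (1 - ε / 2) * (‖v k‖ / r) ≤ ‖v k‖ / r - 1 := by
  have h1 := h.x_gt hk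
  rw [div_lt_iff₀ h.he] at h1
  nlinarith

lemma Hyp.Lam_eq (h : Hyp ε r v) : Lam ε r v = r * ∑ k ∈ La ε r v, ‖v k‖ / r := by
  rw [Lam, Finset.mul_sum]
  refine Finset.sum_congr rfl fun k _ => ?_
  have := h.r_pos.ne'
  field_simp

lemma Hyp.Lam_nonneg : 0 ≤ Lam ε r v := Finset.sum_nonneg fun _ _ => norm_nonneg _

lemma Hyp.sum_La_nonneg (h : Hyp ε r v) : 0 ≤ ∑ k ∈ La ε r v, ‖v k‖ / r :=
  Finset.sum_nonneg fun _ _ => div_nonneg (norm_nonneg _) h.r_pos.le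

lemma Hyp.sum_La_le (h : Hyp ε r v) :
    (1 - ε / 2) * ∑ k ∈ La ε r v, ‖v k‖ / r ≤ ∑ k ∈ La ε r v, (‖v k‖ / r - 1) := by
  rw [Finset.mul_sum]
  exact Finset.sum_le_sum fun k hk => h.x_sub_one_ge hk

lemma Hyp.Lam_le (h : Hyp ε r v) : Lam ε r v ≤ (1 - ε / 2) * (KK ε r v).re := by
  have h1 := h.budget
  have h2 := h.sum_phi_Sm_nonneg
  have h3 := h.sum_La_le
  have h4 := h.sum_La_nonneg
  rw [h.Lam_eq]
  set X := ∑ k ∈ La ε r v, ‖v k‖ / r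
  have h5 : (1 - ε / 2) * X ≤ (KK ε r v).re := by linarith
  have h6 := h.he
  have h7 := h.he1
  -- r ≤ 1-ε ≤ (1-ε/2)^2
  have h8 : r ≤ (1 - ε / 2) * (1 - ε / 2) := by nlinarith [h.hr1]
  calc r * X ≤ (1 - ε / 2) * (1 - ε / 2) * X := mul_le_mul_of_nonneg_right h8 h4
    _ = (1 - ε / 2) * ((1 - ε / 2) * X) := by ring
    _ ≤ (1 - ε / 2) * (KK ε r v).re := mul_le_mul_of_nonneg_left h5 (by linarith)

lemma Hyp.K_re_nonneg (h : Hyp ε r v) : 0 ≤ (KK ε r v).re := by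
  have h1 := h.budget
  have h2 := h.sum_phi_Sm_nonneg
  have h3 := h.sum_La_le
  have h4 := h.sum_La_nonneg
  have h5 : 0 ≤ (1 - ε / 2) * ∑ k ∈ La ε r v, ‖v k‖ / r :=
    mul_nonneg (by linarith [h.he1]) h4
  linarith

lemma Hyp.K_sub_Lam (h : Hyp ε r v) : (ε / 2) * (KK ε r v).re ≤ (KK ε r v).re - Lam ε r v := by
  have := h.Lam_le
  linarith

lemma Hyp.sum_phi_Sm_le (h : Hyp ε r v) : ∑ k ∈ Sm ε r v, phi r (v k) ≤ (KK ε r v).re := by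
  have h1 := h.budget
  have h3 := h.sum_La_le
  have h4 := h.sum_La_nonneg
  have h5 : 0 ≤ (1 - ε / 2) * ∑ k ∈ La ε r v, ‖v k‖ / r :=
    mul_nonneg (by linarith [h.he1]) h4
  linarith

lemma Hyp.sum_phi_le (h : Hyp ε r v) : ∑ k, phi r (v k) ≤ 2 * (KK ε r v).re := by
  rw [sum_split ε r v]
  have h1 := h.budget
  have h2 : ∑ k ∈ La ε r v, phi r (v k) ≤
      ∑ k ∈ La ε r v, (‖v k‖ / r - 1) + Lam ε r v := by
    rw [Lam, ← Finset.sum_add_distrib]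
    refine Finset.sum_le_sum fun k _ => ?_
    unfold phi
    have := (le_abs_self _).trans (abs_re_le_norm (v k))
    linarith
  have h3 := h.Lam_le
  have h4 := h.K_re_nonneg
  have h5 := h.he
  nlinarith

lemma Hyp.card_La (h : Hyp ε r v) : ((La ε r v).card : ℝ) ≤ N / 4 := by
  have h1 := h.sum_le
  rw [sum_split ε r v] at h1
  have h2 : 0 ≤ ∑ k ∈ Sm ε r v, ‖v k‖ / r :=
    Finset.sum_nonneg fun _ _ => div_nonneg (norm_nonneg _) h.r_pos.le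
  have h3 : (La ε r v).card • (4 : ℝ) ≤ ∑ k ∈ La ε r v, ‖v k‖ / r := by
    refine Finset.card_nsmul_le_sum _ _ _ fun k hk => ?_
    have := h.x_gt hk
    have := h.T_ge
    linarith
  rw [nsmul_eq_mul] at h3
  linarith

lemma Hyp.sum_im_sq (h : Hyp ε r v) :
    ∑ k ∈ Sm ε r v, (v k).im ^ 2 ≤ (4 / ε) * (KK ε r v).re := by
  have h1 : ∑ k ∈ Sm ε r v, (v k).im ^ 2 ≤ ∑ k ∈ Sm ε r v, (4 / ε) * phi r (v k) := by
    refine Finset.sum_le_sum fun k hk => ?_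
    refine (im_sq_le h.r_pos (h.reg k)).trans ?_
    refine mul_le_mul_of_nonneg_right ?_ (phi_nonneg h.r_pos (h.reg k))
    rw [Sm, Finset.mem_filter] at hk
    have : (4 : ℝ) / ε = 2 * (2 / ε) := by ring
    rw [this]
    linarith [hk.2]
  rw [← Finset.mul_sum] at h1
  refine h1.trans (mul_le_mul_of_nonneg_left h.sum_phi_Sm_le ?_)
  have := h.he
  positivity

lemma card_Sm_le : ((Sm ε r v).card : ℝ) ≤ N := by
  have := card_split ε r v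
  have h2 : (Sm ε r v).card ≤ N := by omega
  exact_mod_cast h2

lemma Hyp.sum_abs_im (h : Hyp ε r v) :
    (∑ k ∈ Sm ε r v, |(v k).im|) ^ 2 ≤ N * ((4 / ε) * (KK ε r v).re) := by
  have h1 : (∑ k ∈ Sm ε r v, |(v k).im|) ^ 2 ≤
      (Sm ε r v).card * ∑ k ∈ Sm ε r v, |(v k).im| ^ 2 := sq_sum_le_card_mul_sum_sq
  have h2 : ∑ k ∈ Sm ε r v, |(v k).im| ^ 2 ≤ (4 / ε) * (KK ε r v).re := by
    refine le_trans (le_of_eq ?_) h.sum_im_sq
    exact Finset.sum_congr rfl fun k _ => sq_abs _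
  have h3 := card_Sm_le (ε := ε) (r := r) (v := v)
  have h4 : 0 ≤ ∑ k ∈ Sm ε r v, |(v k).im| ^ 2 := Finset.sum_nonneg fun _ _ => sq_nonneg _
  calc _ ≤ _ := h1
    _ ≤ N * ∑ k ∈ Sm ε r v, |(v k).im| ^ 2 := mul_le_mul_of_nonneg_right h3 h4
    _ ≤ _ := mul_le_mul_of_nonneg_left h2 (Nat.cast_nonneg _)

lemma Hyp.K_im_sq (h : Hyp ε r v) : (KK ε r v).im ^ 2 ≤ N * ((4 / ε) * (KK ε r v).re) := by
  refine le_trans ?_ h.sum_abs_im
  rw [← sq_abs]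
  refine pow_le_pow_left₀ (abs_nonneg _) ?_ 2
  rw [KK, Complex.im_sum]
  exact Finset.abs_sum_le_sum_abs _ _

lemma Hyp.V_im_sq (h : Hyp ε r v) :
    (VV ε r v).im ^ 2 ≤ (4 / ε) ^ 2 * (N * ((4 / ε) * (KK ε r v).re)) := by
  have h1 : |(VV ε r v).im| ≤ (4 / ε) * ∑ k ∈ Sm ε r v, |(v k).im| := by
    rw [VV, Complex.im_sum, Finset.mul_sum]
    refine (Finset.abs_sum_le_sum_abs _ _).trans (Finset.sum_le_sum fun k hk => ?_)
    have h2 : ((v k) ^ 2).im = 2 * (v k).re * (v k).im := by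
      rw [pow_two, mul_im]; ring
    rw [h2, abs_mul, abs_mul, abs_two]
    refine mul_le_mul_of_nonneg_right ?_ (abs_nonneg _)
    have h3 := (abs_re_le_norm (v k)).trans (h.norm_le hk)
    have : (4 : ℝ) / ε = 2 * (2 / ε) := by ring
    rw [this]
    linarith
  have h4 := h.sum_abs_im
  have h5 : |(VV ε r v).im| ^ 2 ≤ ((4 / ε) * ∑ k ∈ Sm ε r v, |(v k).im|) ^ 2 :=
    pow_le_pow_left₀ (abs_nonneg _) h1 2
  rw [sq_abs, mul_pow] at h5
  refine h5.trans (mul_le_mul_of_nonneg_left h4 (by positivity))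

lemma Hyp.V_re_ge (h : Hyp ε r v) :
    (3 * ε ^ 2 / 16) * N - (8 / ε) * (KK ε r v).re ≤ (VV ε r v).re := by
  have h1 : (VV ε r v).re = ∑ k ∈ Sm ε r v, (‖v k‖ ^ 2 - 2 * (v k).im ^ 2) := by
    rw [VV, Complex.re_sum]
    refine Finset.sum_congr rfl fun k _ => ?_
    rw [← normSq_eq_norm_sq, normSq_apply, pow_two, mul_re]
    ring
  rw [h1, Finset.sum_sub_distrib, ← Finset.mul_sum]
  have h2 := h.sum_im_sq
  have h3 : (Sm ε r v).card • ((ε / 2) ^ 2) ≤ ∑ k ∈ Sm ε r v, ‖v k‖ ^ 2 := by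
    refine Finset.card_nsmul_le_sum _ _ _ fun k _ => ?_
    exact pow_le_pow_left₀ (by linarith [h.he]) (h.norm_ge k) 2
  rw [nsmul_eq_mul] at h3
  have h4 := h.card_La
  have h5 : (N : ℝ) = (Sm ε r v).card + (La ε r v).card := by
    exact_mod_cast card_split ε r v
  have h6 : 3 * (N : ℝ) / 4 ≤ (Sm ε r v).card := by linarith
  have h7 : 3 * (N : ℝ) / 4 * ((ε / 2) ^ 2) ≤ (Sm ε r v).card * ((ε / 2) ^ 2) :=
    mul_le_mul_of_nonneg_right h6 (by positivity)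
  have h8 : (8 / ε) * (KK ε r v).re = 2 * ((4 / ε) * (KK ε r v).re) := by ring
  rw [h8]
  nlinarith

lemma Hyp.V_re_le (h : Hyp ε r v) : (VV ε r v).re ≤ (2 / ε) ^ 2 * N := by
  have h1 : (VV ε r v).re ≤ ∑ k ∈ Sm ε r v, (2 / ε) ^ 2 := by
    rw [VV, Complex.re_sum]
    refine Finset.sum_le_sum fun k hk => ?_
    refine (Complex.re_le_norm _).trans ?_
    rw [norm_pow]
    exact pow_le_pow_left₀ (norm_nonneg _) (h.norm_le hk) 2
  rw [Finset.sum_const, nsmul_eq_mul] at h1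
  have h2 := card_Sm_le (ε := ε) (r := r) (v := v)
  refine h1.trans ?_
  rw [mul_comm]
  exact mul_le_mul_of_nonneg_left h2 (by positivity)

lemma Hyp.norm_K_le (h : Hyp ε r v) : ‖KK ε r v‖ ≤ N := by
  have h1 : ‖KK ε r v‖ ≤ ∑ k ∈ Sm ε r v, ‖v k‖ / r := by
    rw [KK]
    refine (norm_sum_le _ _).trans (Finset.sum_le_sum fun k _ => ?_)
    rw [le_div_iff₀ h.r_pos]
    nlinarith [norm_nonneg (v k), h.r_lt]
  have h2 := h.sum_le
  rw [sum_split ε r v] at h2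
  linarith [h.sum_La_nonneg]

end Pool.Agent.Lib.MP_172a45_an.H13
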