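import Mathlib

/-!
Normalised data: `v k = a / (a - ζ k)` for the critical points `ζ k` of a polynomial with a zero
`a`, `r = |a|`. Then `P'((1-τ)a)/P'(a) = ∏ (1 - τ v k)`.
-/

namespace Pool.Agent.Lib.MP_172a45_an.H13

open Complex Finset

/-- `∏ (1 - τ v k)` -/
noncomputable def q {N : ℕ} (v : Fin N → ℂ) (τ : ℂ) : ℂ := ∏ k, (1 - τ * v k)

/-- `∫₀¹ q(στ) dσ` -/
noncomputable def A {N : ℕ} (v : Fin N → ℂ) (τ : ℂ) : ℂ := ∫ σ in (0:ℝ)..1, q v (σ * τ)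

/-- The critical point lies in the closed unit disc. -/
def Reg (r : ℝ) (v : ℂ) : Prop := v ≠ 0 ∧ ‖1 - v‖ ≤ ‖v‖ / r

/-- the excess -/
noncomputable def phi (r : ℝ) (v : ℂ) : ℝ := ‖v‖ / r + v.re - 1

lemma continuous_q {N : ℕ} (v : Fin N → ℂ) : Continuous (q v) := by
  unfold q
  fun_prop

lemma q_zero {N : ℕ} (v : Fin N → ℂ) : q v 0 = 1 := by simp [q]

/-- `(Im v)² ≤ 2 x φ` -/
lemma im_sq_le {r : ℝ} (hr : 0 < r) {v : ℂ} (hv : Reg r v) :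
    v.im ^ 2 ≤ 2 * (‖v‖ / r) * phi r v := by
  obtain ⟨h0, h1⟩ := hv
  set x := ‖v‖ / r with hx
  have hx0 : 0 < x := div_pos (norm_pos_iff.mpr h0) hr
  have h2 : ‖1 - v‖ ^ 2 ≤ x ^ 2 := pow_le_pow_left₀ (norm_nonneg _) h1 2
  rw [← normSq_eq_norm_sq, normSq_apply] at h2
  simp only [sub_re, one_re, sub_im, one_im] at h2
  unfold phi
  rw [← hx]
  -- (1-u)² + y² ≤ x² ; want y² ≤ 2x(x+u-1)
  nlinarith [sq_nonneg (x - (1 - v.re)), sq_nonneg (x + v.re - 1)]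

lemma phi_nonneg {r : ℝ} (hr : 0 < r) {v : ℂ} (hv : Reg r v) : 0 ≤ phi r v := by
  have h := im_sq_le hr hv
  have hx0 : 0 < ‖v‖ / r := div_pos (norm_pos_iff.mpr hv.1) hr
  by_contra hneg
  push Not at hneg
  have : 2 * (‖v‖ / r) * phi r v < 0 := mul_neg_of_pos_of_neg (by positivity) hneg
  nlinarith [sq_nonneg v.im]

/-- `x ≥ 1/(1+r)` in the form `1 ≤ x (1 + r)` -/
lemma one_le_x_mul {r : ℝ} (hr : 0 < r) {v : ℂ} (hv : Reg r v) : 1 ≤ ‖v‖ / r * (1 + r) := by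
  have h1 : (1:ℝ) ≤ ‖1 - v‖ + ‖v‖ := by
    have := norm_add_le (1 - v) v
    simpa using this
  have h2 := hv.2
  have h3 : ‖v‖ / r * (1 + r) = ‖v‖ / r + ‖v‖ := by field_simp
  linarith

/-- `2 φ ≥ (1 - (1-r) x) ((1+r) x - 1)` -/
lemma two_phi_ge {r : ℝ} (hr : 0 < r) {v : ℂ} (hv : Reg r v) :
    (1 - (1 - r) * (‖v‖ / r)) * ((1 + r) * (‖v‖ / r) - 1) ≤ 2 * phi r v := by
  obtain ⟨h0, h1⟩ := hv
  set x := ‖v‖ / r with hx
  have hvx : ‖v‖ = r * x := by rw [hx]; field_simp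
  have h2 : ‖1 - v‖ ^ 2 ≤ x ^ 2 := pow_le_pow_left₀ (norm_nonneg _) h1 2
  rw [← normSq_eq_norm_sq, normSq_apply] at h2
  have h3 : ‖v‖ ^ 2 = v.re * v.re + v.im * v.im := by
    rw [← normSq_eq_norm_sq, normSq_apply]
  rw [hvx] at h3
  simp only [sub_re, one_re, sub_im, one_im] at h2
  unfold phi
  rw [← hx]
  nlinarith

/-- near `x = 1` the excess is bounded below -/
lemma phi_ge_of_near {r : ℝ} (hr : 0 < r) (hr1 : r < 1) {v : ℂ} (hv : Reg r v)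
    (hx : |‖v‖ / r - 1| ≤ r / 4) : 3 * r ^ 2 / 16 ≤ phi r v := by
  have h := two_phi_ge hr hv
  set x := ‖v‖ / r
  rw [abs_le] at hx
  have h1 : 3 * r / 4 ≤ 1 - (1 - r) * x := by nlinarith
  have h2 : r / 2 ≤ (1 + r) * x - 1 := by nlinarith
  have h3 : (3 * r / 4) * (r / 2) ≤ (1 - (1 - r) * x) * ((1 + r) * x - 1) :=
    mul_le_mul h1 h2 (by positivity) (by linarith [h1, (by positivity : 0 ≤ 3 * r / 4)])
  nlinarith

/-- `‖1 - t v‖ ≤ 1 + t (x - 1)` for `t ∈ [0,1]` -/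
lemma norm_one_sub_le {r : ℝ} {v : ℂ} (hv : Reg r v) {t : ℝ} (h0 : 0 ≤ t) (h1 : t ≤ 1) :
    ‖1 - (t : ℂ) * v‖ ≤ 1 + t * (‖v‖ / r - 1) := by
  have : (1 : ℂ) - (t : ℂ) * v = ((1 - t : ℝ) : ℂ) + (t : ℂ) * (1 - v) := by
    push_cast; ring
  rw [this]
  refine (norm_add_le _ _).trans ?_
  rw [norm_mul, Complex.norm_real, Complex.norm_real, Real.norm_of_nonneg (by linarith),
    Real.norm_of_nonneg h0]
  nlinarith [mul_le_mul_of_nonneg_left hv.2 h0]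

/-- strict convexity gain:
`‖1 - t v‖² ≤ (1-t) + t x² - t (1-t) r² x²` -/
lemma norm_one_sub_sq_le {r : ℝ} (hr : 0 < r) {v : ℂ} (hv : Reg r v) {t : ℝ} (h0 : 0 ≤ t)
    (h1 : t ≤ 1) :
    ‖1 - (t : ℂ) * v‖ ^ 2 ≤
      (1 - t) + t * (‖v‖ / r) ^ 2 - t * (1 - t) * r ^ 2 * (‖v‖ / r) ^ 2 := by
  obtain ⟨hne, h⟩ := hv
  set x := ‖v‖ / r with hx
  have hvx : ‖v‖ = r * x := by rw [hx]; field_simp
  have h2 : ‖1 - v‖ ^ 2 ≤ x ^ 2 := pow_le_pow_left₀ (norm_nonneg _) h 2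
  have h3 : ‖v‖ ^ 2 = v.re * v.re + v.im * v.im := by
    rw [← normSq_eq_norm_sq, normSq_apply]
  rw [hvx] at h3
  rw [← normSq_eq_norm_sq, normSq_apply] at h2 ⊢
  simp only [sub_re, one_re, sub_im, one_im, mul_re, mul_im, ofReal_re, ofReal_im] at h2 ⊢
  have h4 : t * (1 - t) * (r * x) ^ 2 = t * (1 - t) * (v.re * v.re + v.im * v.im) := by rw [h3]
  have h5 := mul_le_mul_of_nonneg_left h2 h0
  nlinarith

end Pool.Agent.Lib.MP_172a45_an.H13
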