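import Pool.Agent.Lib.MP_172a45_an.H13.Budget
import Pool.Agent.Lib.MP_172a45_an.H73.Basic

/-!
From a polynomial and one of its simple zeros to the normalised data `v k = a / (a - ζ k)`.
-/

namespace Pool.Agent.Lib.MP_172a45_an.H13

open Polynomial Finset

lemma exists_fin_enum (s : Multiset ℂ) {N : ℕ} (hN : s.card = N) :
    ∃ ζ : Fin N → ℂ, s = (Finset.univ : Finset (Fin N)).val.map ζ := by
  subst hN
  obtain ⟨l, rfl⟩ : ∃ l : List ℂ, s = (l : Multiset ℂ) := ⟨s.toList, by simp⟩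
  refine ⟨fun k => l.get (Fin.cast (by simp) k), ?_⟩
  have h1 : (Finset.univ : Finset (Fin (l : Multiset ℂ).card)).val =
      ((List.finRange (l : Multiset ℂ).card : List _) : Multiset _) := rfl
  rw [h1, Multiset.map_coe, ← List.ofFn_eq_map]
  congr 1
  exact (List.ofFn_get l).symm

lemma eval_zero_norm_le {Q : ℂ[X]} (hroots : ∀ z ∈ Q.roots, ‖z‖ ≤ 1) :
    ‖Q.eval 0‖ ≤ ‖Q.leadingCoeff‖ := by
  rw [(IsAlgClosed.splits Q).eval_eq_prod_roots, norm_mul]
  have h1 : ‖(Q.roots.map fun z => (0 : ℂ) - z).prod‖ ≤ 1 := by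
    have h2 : ∀ m : Multiset ℂ, (∀ z ∈ m, ‖z‖ ≤ 1) → ‖(m.map fun z => (0 : ℂ) - z).prod‖ ≤ 1 := by
      intro m
      induction m using Multiset.induction with
      | empty => intro _; simp
      | cons z m ih =>
        intro hm
        rw [Multiset.map_cons, Multiset.prod_cons, norm_mul]
        have h3 : ‖(0 : ℂ) - z‖ ≤ 1 := by simpa using hm z (by simp)
        have h4 := ih fun w hw => hm w (by simp [hw])
        calc ‖(0 : ℂ) - z‖ * ‖(m.map fun z => (0 : ℂ) - z).prod‖ ≤ 1 * 1 :=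
              mul_le_mul h3 h4 (norm_nonneg _) zero_le_one
          _ = 1 := one_mul 1
    exact h2 _ hroots
  calc ‖Q.leadingCoeff‖ * ‖(Q.roots.map fun z => (0 : ℂ) - z).prod‖ ≤ ‖Q.leadingCoeff‖ * 1 :=
        mul_le_mul_of_nonneg_left h1 (norm_nonneg _)
    _ = ‖Q.leadingCoeff‖ := mul_one _

/-- evaluation of the polynomial at the origin through the path from `a` -/
lemma eval_zero_eq {N : ℕ} (P : ℂ[X]) (a : ℂ) (hPa : P.eval a = 0) (ζ : Fin N → ℂ) (c : ℂ)
    (hD : ∀ w, P.derivative.eval w = c * ∏ k, (w - ζ k)) (hne : ∀ k, a - ζ k ≠ 0) :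
    P.eval 0 = -a * (P.derivative.eval a * A (fun k => a / (a - ζ k)) 1) := by
  have hpath : ∀ t : ℝ, P.derivative.eval ((1 - (t : ℂ)) * a) =
      P.derivative.eval a * q (fun k => a / (a - ζ k)) t := by
    intro t
    rw [hD, hD, q, mul_assoc, ← Finset.prod_mul_distrib]
    congr 1
    refine Finset.prod_congr rfl fun k _ => ?_
    have := hne k
    field_simp
    ring
  have hFTC : ∫ t in (0:ℝ)..1, -a * P.derivative.eval ((1 - (t : ℂ)) * a) = P.eval 0 - P.eval a := by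
    have hd : ∀ t ∈ Set.uIcc (0:ℝ) 1, HasDerivAt (fun t : ℝ => P.eval ((1 - (t : ℂ)) * a))
        (-a * P.derivative.eval ((1 - (t : ℂ)) * a)) t := by
      intro t _
      have h1 : HasDerivAt (fun t : ℝ => (1 - (t : ℂ)) * a) (-1 * a) t := by
        have h0 : HasDerivAt (fun t : ℝ => (t : ℂ)) 1 t := Complex.ofRealCLM.hasDerivAt
        exact (h0.const_sub 1).mul_const a
      have h2 := (P.hasDerivAt ((1 - (t : ℂ)) * a)).comp t h1
      refine h2.congr_deriv ?_
      ring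
    rw [intervalIntegral.integral_eq_sub_of_hasDerivAt hd]
    · simp
    · refine Continuous.intervalIntegrable ?_ _ _
      fun_prop
  rw [hPa, sub_zero] at hFTC
  rw [← hFTC, A, ← intervalIntegral.integral_const_mul, ← intervalIntegral.integral_const_mul]
  refine intervalIntegral.integral_congr fun t _ => ?_
  simp only [hpath, mul_one]

open scoped Classical in
theorem glue (P : ℂ[X]) (hP : 2 ≤ P.natDegree) (hroots : ∀ z ∈ P.roots, ‖z‖ ≤ 1)
    (a : ℂ) (ha : a ∈ P.roots) (hs : a ∉ P.derivative.roots) (ha0 : a ≠ 0) :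
    ∃ v : Fin (P.natDegree - 1) → ℂ, (∀ k, Reg ‖a‖ (v k)) ∧
      (∑ k, ‖v k‖ / ‖a‖ = (P.derivative.roots.map fun z => ‖a - z‖⁻¹).sum) ∧
      (((P.natDegree - 1 : ℕ) : ℝ) + 1) * ‖A v 1‖ ≤ ∏ k, (‖v k‖ / ‖a‖) ∧
      ∀ ε : ℝ, KK ε ‖a‖ v =
        ((P.derivative.roots.filter fun z => ‖a - z‖⁻¹ ≤ 2 / ε).map fun z => a / (a - z)).sum := by
  have hP0 : P ≠ 0 := by
    rintro rfl
    simp at hP
  have hr0 : 0 < ‖a‖ := norm_pos_iff.mpr ha0
  obtain ⟨ζ, hζ⟩ := exists_fin_enum P.derivative.roots (H73.card_critical (P := P))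
  have hmem : ∀ k, ζ k ∈ P.derivative.roots := by
    intro k
    rw [hζ]
    exact Multiset.mem_map_of_mem _ (by simp)
  have hne : ∀ k, a - ζ k ≠ 0 := by
    intro k h0
    rw [sub_eq_zero] at h0
    exact hs (h0 ▸ hmem k)
  have hle : ∀ k, ‖ζ k‖ ≤ 1 := fun k =>
    H73.critical_norm_le hP (fun w hw => hroots w ((mem_roots hP0).2 hw)) (hmem k)
  have hx : ∀ k, ‖a / (a - ζ k)‖ / ‖a‖ = ‖a - ζ k‖⁻¹ := by
    intro k
    rw [norm_div]
    have : ‖a - ζ k‖ ≠ 0 := norm_ne_zero_iff.mpr (hne k)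
    field_simp
  refine ⟨fun k => a / (a - ζ k), ?_, ?_, ?_, ?_⟩
  · intro k
    refine ⟨div_ne_zero ha0 (hne k), ?_⟩
    rw [hx k]
    have e1 : 1 - a / (a - ζ k) = -(ζ k) / (a - ζ k) := by
      have := hne k
      field_simp
      ring
    rw [e1, norm_div, norm_neg, div_eq_mul_inv]
    exact mul_le_of_le_one_left (by positivity) (hle k)
  · rw [hζ, Multiset.map_map]
    simp only [hx]
    rfl
  · have hD : ∀ w, P.derivative.eval w =
        (P.leadingCoeff * P.natDegree) * ∏ k, (w - ζ k) := by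
      intro w
      rw [(IsAlgClosed.splits P.derivative).eval_eq_prod_roots, leadingCoeff_derivative]
      conv_lhs => rw [hζ, Multiset.map_map]
      rfl
    have hPa : P.eval a = 0 := isRoot_of_mem_roots ha
    have h0 := eval_zero_eq P a hPa ζ _ hD hne
    obtain ⟨Q, hQ⟩ := dvd_iff_isRoot.mpr (isRoot_of_mem_roots ha)
    have hQ0 : Q ≠ 0 := by
      rintro rfl
      rw [mul_zero] at hQ
      exact hP0 hQ
    have hrootsQ : P.roots = a ::ₘ Q.roots := by
      have : P.roots = (X - C a).roots + Q.roots := by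
        conv_lhs => rw [hQ]
        exact roots_mul (mul_ne_zero (X_sub_C_ne_zero a) hQ0)
      rw [this, roots_X_sub_C]
      rfl
    have hlcQ : Q.leadingCoeff = P.leadingCoeff := by
      conv_rhs => rw [hQ]
      simp
    have hQle : ‖Q.eval 0‖ ≤ ‖P.leadingCoeff‖ := by
      rw [← hlcQ]
      refine eval_zero_norm_le fun z hz => hroots z ?_
      rw [hrootsQ]
      exact Multiset.mem_cons_of_mem hz
    have h1 : P.eval 0 = -a * Q.eval 0 := by
      conv_lhs => rw [hQ]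
      simp
    have h2 : Q.eval 0 = P.derivative.eval a * A (fun k => a / (a - ζ k)) 1 :=
      mul_left_cancel₀ (neg_ne_zero.mpr ha0) (h1.symm.trans h0)
    rw [h2, hD a, norm_mul, norm_mul, norm_mul, Complex.norm_natCast, norm_prod] at hQle
    have hlc : 0 < ‖P.leadingCoeff‖ := norm_pos_iff.mpr (leadingCoeff_ne_zero.mpr hP0)
    have hdpos : 0 < ∏ k, ‖a - ζ k‖ := Finset.prod_pos fun k _ => norm_pos_iff.mpr (hne k)
    have hprod : ∏ k, (‖a / (a - ζ k)‖ / ‖a‖) = (∏ k, ‖a - ζ k‖)⁻¹ := by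
      rw [← Finset.prod_inv_distrib]
      exact Finset.prod_congr rfl fun k _ => hx k
    rw [hprod]
    have hnN : (P.natDegree : ℝ) = ((P.natDegree - 1 : ℕ) : ℝ) + 1 := by
      have : P.natDegree = (P.natDegree - 1) + 1 := by omega
      conv_lhs => rw [this]
      push_cast
      ring
    rw [hnN] at hQle
    rw [← one_div, le_div_iff₀ hdpos]
    have h3 : ‖P.leadingCoeff‖ * ((((P.natDegree - 1 : ℕ) : ℝ) + 1) *
        ‖A (fun k => a / (a - ζ k)) 1‖ * ∏ k, ‖a - ζ k‖) ≤ ‖P.leadingCoeff‖ * 1 := by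
      rw [mul_one]
      refine le_trans (le_of_eq ?_) hQle
      ring
    exact le_of_mul_le_mul_left h3 hlc
  · intro ε
    rw [hζ, Multiset.filter_map, Multiset.map_map]
    unfold KK Sm
    simp only [hx]
    rfl

end Pool.Agent.Lib.MP_172a45_an.H13
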